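import Mathlib
import Pool.Agent.H40P.Local

/-!
# Groups of points of formal group laws over finite local rings have many conjugacy classes
-/

set_option autoImplicit false

open Filter Topology MvPolynomial IsLocalRing

namespace Pool.Agent.Results.MP_e2add9_al.AnalyticGroups

open Pool.Agent.H40P

/-- `Q` is (isomorphic to) a standard group of dimension `r` over the local ring `R`: the group of
the vectors of length `r` with coordinates in the maximal ideal of `R`, with product given by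
polynomials `F_c(X, Y) = X_c + Y_c + ` (an element of the ideal generated by all products
`X_j Y_k`). -/
def IsStandard (R : Type) [CommRing R] [IsLocalRing R] (r : ℕ) (Q : Type) [Group Q] : Prop :=
  ∃ (e : Q ≃ {v : Fin r → R // ∀ c, v c ∈ maximalIdeal R})
    (F : Fin r → MvPolynomial (Fin r ⊕ Fin r) R),
    (∀ c, F c - X (Sum.inl c) - X (Sum.inr c) ∈ Ideal.span (Set.range
      (fun jk : Fin r × Fin r => (X (Sum.inl jk.1) * X (Sum.inr jk.2) :
        MvPolynomial (Fin r ⊕ Fin r) R)))) ∧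
    ∀ g h : Q, ∀ c, (e (g * h)).1 c = eval (Sum.elim (e g).1 (e h).1) (F c)

/-- `|m| ^ κ ≤ |R / m| |a ^ 2 R|` for some `a ≠ 0` in `R` with `a ^ 3 = 0`, `m` the maximal ideal
of `R`. -/
def Cubic (κ : ℝ) (R : Type) [CommRing R] [IsLocalRing R] : Prop :=
  ∃ a : R, a ≠ 0 ∧ a ^ 3 = 0 ∧ (Nat.card (maximalIdeal R) : ℝ) ^ κ ≤
    (Nat.card (R ⧸ maximalIdeal R) : ℝ) * (Nat.card (Ideal.span {a ^ 2} : Ideal R) : ℝ)

lemma classes_pos (G : Type) [Group G] [Finite G] : (0 : ℝ) < Nat.card (ConjClasses G) := by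
  have : Finite (ConjClasses G) := Quotient.finite _
  exact_mod_cast Nat.card_pos

lemma index_pos (G : Type) [Group G] [Finite G] (H : Subgroup G) : (0 : ℝ) < H.index := by
  have := Subgroup.index_ne_zero_of_finite (H := H)
  exact_mod_cast Nat.pos_of_ne_zero this

lemma section_classes (G : Type) [Group G] [Finite G] (H : Subgroup G) (Q : Type) [Group Q]
    (f : H →* Q) (hf : Function.Surjective f) :
    (Nat.card (ConjClasses Q) : ℝ) ≤ (H.index : ℝ) * (Nat.card (ConjClasses G) : ℝ) := by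
  exact_mod_cast (conj_quot f hf).trans (conj_subgroup H)

lemma standard_classes (R : Type) [CommRing R] [IsLocalRing R] [Finite R] (r : ℕ) (Q : Type)
    [Group Q] (hr : 0 < r) (hQ : IsStandard R r Q) (a : R) (ha : a ≠ 0) (ha3 : a ^ 3 = 0) :
    Nat.card (R ⧸ maximalIdeal R) ^ r * Nat.card (Ideal.span {a ^ 2} : Ideal R) ≤
      2 * Nat.card (ConjClasses Q) := by
  have hfin : Finite Q := by
    obtain ⟨e, -⟩ := hQ
    exact Finite.of_equiv _ e.symm
  exact local_bound hQ hr ha ha3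

lemma key (κ f r M s : ℝ) (hf : 1 ≤ f) (hs : 0 ≤ s) (hr : 0 ≤ r) (h : κ * M ≤ f + s) :
    2 * Real.sqrt (κ * (r * M)) - 1 ≤ f * r + s := by
  have h1 : Real.sqrt (κ * (r * M)) ≤ (f * r + s + 1) / 2 := by
    rw [Real.sqrt_le_left (by positivity)]
    have h2 : κ * (r * M) ≤ r * (f + s) := by nlinarith
    have h3 : 0 ≤ r * s * (f - 1) := by
      have : 0 ≤ f - 1 := by linarith
      positivity
    nlinarith [sq_nonneg (f * r - s - 1)]
  linarith

lemma principal_cubic (R : Type) [CommRing R] [IsLocalRing R] [Finite R]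
    (hm : (maximalIdeal R).IsPrincipal) (hne : maximalIdeal R ≠ ⊥) : Cubic (1 / 3) R := by
  classical
  obtain ⟨t, ht⟩ := hm
  rw [← Ideal.span] at ht
  have htm : t ∈ maximalIdeal R := by rw [ht]; exact Ideal.mem_span_singleton_self t
  have hunit : ∀ k, 0 < k → IsUnit (1 - t ^ k) := by
    intro k hk
    by_contra hn
    have h1 : 1 - t ^ k ∈ maximalIdeal R := (mem_maximalIdeal _).2 hn
    have h2 : t ^ k ∈ maximalIdeal R := Ideal.pow_mem_of_mem _ htm k hk
    have h3 := (maximalIdeal R).add_mem h1 h2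
    rw [sub_add_cancel] at h3
    exact (Ideal.ne_top_iff_one _).1 (maximalIdeal.isMaximal R).ne_top h3
  have hnil : ∃ n, t ^ n = 0 := by
    obtain ⟨i, j, hij, hp⟩ := Finite.exists_ne_map_eq_of_infinite (fun n : ℕ => t ^ n)
    wlog hlt : i < j generalizing i j
    · exact this j i hij.symm hp.symm (by omega)
    refine ⟨i, ?_⟩
    have h1 : t ^ i * (1 - t ^ (j - i)) = 0 := by
      have hp' : t ^ i = t ^ j := hp
      have : t ^ j = t ^ i * t ^ (j - i) := by rw [← pow_add]; congr 1; omega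
      rw [mul_sub, mul_one, ← this, ← hp', sub_self]
    exact (IsUnit.mul_left_eq_zero (hunit _ (by omega))).1 h1
  set N := Nat.find hnil with hN
  have hN0 : t ^ N = 0 := Nat.find_spec hnil
  have hNmin : ∀ i < N, t ^ i ≠ 0 := fun i hi => Nat.find_min hnil hi
  have ht0 : t ≠ 0 := by
    rintro rfl
    apply hne
    rw [ht]
    exact Ideal.span_singleton_eq_bot.2 rfl
  have hN2 : 2 ≤ N := by
    by_contra hcon
    have h1 : N = 0 ∨ N = 1 := by omega
    rcases h1 with h1 | h1
    · rw [h1, pow_zero] at hN0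
      exact one_ne_zero hN0
    · rw [h1, pow_one] at hN0
      exact ht0 hN0
  have hchain : IsChain R t N := by
    refine ⟨fun a => ?_, hN0, hNmin⟩
    by_cases ha : IsUnit a
    · exact Or.inl ha
    · right
      have : a ∈ maximalIdeal R := (mem_maximalIdeal _).2 ha
      rw [ht] at this
      exact Ideal.mem_span_singleton.1 this
  obtain ⟨i, hi⟩ : ∃ i, i = (N + 2) / 3 := ⟨_, rfl⟩
  have h2q := two_le_q (R := R)
  have hq : Nat.card (R ⧸ (Ideal.span {t} : Ideal R)) = Nat.card (R ⧸ maximalIdeal R) := by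
    rw [ht]
  set q := Nat.card (R ⧸ maximalIdeal R) with hqdef
  have hq1 : (1 : ℝ) < q := by exact_mod_cast (by omega : 1 < q)
  refine ⟨t ^ i, hNmin i (by omega), ?_, ?_⟩
  · rw [← pow_mul]
    obtain ⟨k, hk⟩ : ∃ k, i * 3 = N + k := ⟨i * 3 - N, by omega⟩
    rw [hk, pow_add, hN0, zero_mul]
  · have e1 : Nat.card (maximalIdeal R) = q ^ (N - 1) := by
      have h1 := card_I hchain (j := 1) (by omega)
      rw [hq] at h1
      rw [← h1, I, pow_one, ← ht]
    have e2 : Nat.card (Ideal.span {(t ^ i) ^ 2} : Ideal R) = q ^ (N - 2 * i) := by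
      have h1 := card_I hchain (j := 2 * i) (by omega)
      rw [hq] at h1
      rw [← h1, I, ← pow_mul, mul_comm i 2]
    rw [e1, e2, Nat.cast_pow, Nat.cast_pow, ← pow_succ', ← Real.rpow_natCast, ← Real.rpow_natCast,
      ← Real.rpow_mul (by linarith)]
    refine Real.rpow_le_rpow_of_exponent_le hq1.le ?_
    have h3 : N - 1 ≤ 3 * (N - 2 * i + 1) := by omega
    have h4 : ((N - 1 : ℕ) : ℝ) ≤ 3 * ((N - 2 * i + 1 : ℕ) : ℝ) := by exact_mod_cast h3
    linarith

lemma card_Ann_succ {R : Type} [CommRing R] [Finite R] (t : R) (j : ℕ) :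
    Nat.card (Ann (t ^ (j + 1))) ≤ Nat.card (Ann (t ^ j)) * Nat.card (Ann t) := by
  let f : (Ann (t ^ (j + 1))) →+ (Ann t) :=
    { toFun := fun y => ⟨t ^ j * y.1, by
        have hy := mem_Ann.1 y.2
        rw [mem_Ann, ← hy]; ring⟩
      map_zero' := by ext; simp
      map_add' := by intro y z; ext; simp [mul_add] }
  have h1 := AddSubgroup.index_ker f
  have h2 := AddSubgroup.card_mul_index f.ker
  have h3 : Nat.card f.ker ≤ Nat.card (Ann (t ^ j)) := by
    refine Nat.card_le_card_of_injective (fun y : f.ker => (⟨y.1.1, by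
      have hy := y.2
      rw [AddMonoidHom.mem_ker] at hy
      have := congrArg Subtype.val hy
      rw [mem_Ann]
      exact this⟩ : Ann (t ^ j))) ?_
    intro y z hyz
    have := congrArg Subtype.val hyz
    exact Subtype.ext (Subtype.ext this)
  have h4 : Nat.card f.range ≤ Nat.card (Ann t) :=
    Nat.card_le_card_of_injective _ Subtype.val_injective
  rw [← h2, h1]
  exact Nat.mul_le_mul h3 h4

lemma flat_cubic (R : Type) [CommRing R] [IsLocalRing R] [Finite R] (t : R) (b i : ℕ)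
    (hb : t ^ b = 0) (hc : Nat.card R = Nat.card (R ⧸ (Ideal.span {t} : Ideal R)) ^ b)
    (hi : 1 ≤ i) (h2 : 2 * i ≤ b) (h3 : b ≤ 3 * i) : Cubic (((b : ℝ) - 2 * i) / b) R := by
  set A := Nat.card (R ⧸ (Ideal.span {t} : Ideal R)) with hA
  have hq2 := two_le_q (R := R)
  have htm : t ∈ maximalIdeal R := by
    rw [mem_maximalIdeal, mem_nonunits_iff]
    intro hu
    have := hu.pow b
    rw [hb] at this
    exact not_isUnit_zero this
  have hR2 : 2 ≤ Nat.card R := by
    have : Nontrivial R := inferInstance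
    exact Finite.one_lt_card
  have hA2 : 2 ≤ A := by
    by_contra hcon
    have h1 : A = 0 ∨ A = 1 := by omega
    rcases h1 with h1 | h1
    · rw [h1, zero_pow (by omega)] at hc; omega
    · rw [h1, one_pow] at hc; omega
  have hAnn : Nat.card (Ann t) = A := by
    have h4 := card_Ann t
    have h5 : Nat.card R = A * Nat.card (Ideal.span {t} : Ideal R) :=
      AddSubgroup.card_eq_card_quotient_mul_card_addSubgroup (Ideal.span {t} : Ideal R).toAddSubgroup
    rw [h5, mul_comm] at h4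
    exact Nat.eq_of_mul_eq_mul_right Nat.card_pos h4
  have hpow : ∀ j, Nat.card (Ann (t ^ j)) ≤ A ^ j := by
    intro j
    induction j with
    | zero =>
      rw [pow_zero, pow_zero]
      have : Ann (1 : R) = ⊥ := by
        rw [eq_bot_iff]
        intro y hy
        rw [mem_Ann, one_mul] at hy
        exact hy
      rw [this]
      exact Nat.card_unique.le
    | succ j ih =>
      refine (card_Ann_succ t j).trans ?_
      rw [hAnn, pow_succ]
      exact Nat.mul_le_mul_right _ ih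
  have hlow : ∀ j ≤ b, A ^ (b - j) ≤ Nat.card (Ideal.span {t ^ j} : Ideal R) := by
    intro j hj
    have h4 := card_Ann (t ^ j)
    rw [hc] at h4
    have h5 : A ^ (b - j) * A ^ j ≤ Nat.card (Ideal.span {t ^ j} : Ideal R) * A ^ j := by
      rw [← pow_add, show b - j + j = b by omega, ← h4]
      exact Nat.mul_le_mul_left _ (hpow j)
    exact Nat.le_of_mul_le_mul_right h5 (pow_pos (by omega) _)
  refine ⟨t ^ i, ?_, ?_, ?_⟩
  · intro h0
    have h4 := hlow i (by omega)
    rw [h0] at h4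
    have h5 : Nat.card (Ideal.span {(0 : R)} : Ideal R) = 1 := by
      rw [Ideal.span_singleton_eq_bot.2 rfl]
      exact Nat.card_unique
    rw [h5] at h4
    have h6 := Nat.one_lt_pow (show b - i ≠ 0 by omega) (show 1 < A by omega)
    omega
  · rw [← pow_mul]
    obtain ⟨k, hk⟩ := Nat.exists_eq_add_of_le (show b ≤ i * 3 by omega)
    rw [hk, pow_add, hb, zero_mul]
  · have h4 := hlow (2 * i) h2
    rw [← pow_mul, mul_comm i 2]
    have hle : Nat.card (maximalIdeal R) ≤ A ^ b := by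
      rw [← hc]
      exact Nat.card_le_card_of_injective _ Subtype.val_injective
    have hb0 : (0 : ℝ) < b := by exact_mod_cast (by omega : 0 < b)
    have h2' : (2 * i : ℝ) ≤ b := by exact_mod_cast h2
    have h5 : (Nat.card (maximalIdeal R) : ℝ) ^ (((b : ℝ) - 2 * i) / b) ≤
        ((A ^ (b - 2 * i) : ℕ) : ℝ) := by
      calc (Nat.card (maximalIdeal R) : ℝ) ^ (((b : ℝ) - 2 * i) / b) ≤
            ((A ^ b : ℕ) : ℝ) ^ (((b : ℝ) - 2 * i) / b) := by
            refine Real.rpow_le_rpow (Nat.cast_nonneg _) (by exact_mod_cast hle) ?_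
            exact div_nonneg (by linarith) hb0.le
        _ = ((A ^ (b - 2 * i) : ℕ) : ℝ) := by
            rw [Nat.cast_pow, Nat.cast_pow, ← Real.rpow_natCast, ← Real.rpow_natCast,
              ← Real.rpow_mul (Nat.cast_nonneg _), Nat.cast_sub h2]
            congr 1
            push_cast
            field_simp
    have h6 : ((A ^ (b - 2 * i) : ℕ) : ℝ) ≤
        (Nat.card (Ideal.span {t ^ (2 * i)} : Ideal R) : ℝ) := by exact_mod_cast h4
    have h7 : (1 : ℝ) ≤ Nat.card (R ⧸ maximalIdeal R) := by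
      exact_mod_cast (by omega : 1 ≤ Nat.card (R ⧸ maximalIdeal R))
    have h8 : (0 : ℝ) ≤ (Nat.card (Ideal.span {t ^ (2 * i)} : Ideal R) : ℝ) := Nat.cast_nonneg _
    nlinarith

lemma section_part (G : Type) [Group G] [Finite G] (H : Subgroup G) (Q : Type) [Group Q]
    (f : H →* Q) (hf : Function.Surjective f) (R : Type) [CommRing R] [IsLocalRing R] [Finite R]
    (r : ℕ) (hr : 0 < r) (hQ : IsStandard R r Q) (κ : ℝ) (hR : Cubic κ R) (p m : ℕ)
    (hp : p.Prime) (hc : Nat.card Q = p ^ m) :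
    (p : ℝ) ^ (2 * Real.sqrt (κ * m) - 1) ≤
      2 * ((H.index : ℝ) * (Nat.card (ConjClasses G) : ℝ)) := by
  have hp1 : (1 : ℝ) < p := by exact_mod_cast hp.one_lt
  obtain ⟨a, ha, ha3, hκ⟩ := hR
  have hb := standard_classes R r Q hr hQ a ha ha3
  have hcm : Nat.card (maximalIdeal R) ^ r = p ^ m := by rw [← hc]; exact (card_std hQ).symm
  -- everything is a power of `p`
  obtain ⟨M, -, hM⟩ : ∃ M ≤ m, Nat.card (maximalIdeal R) = p ^ M :=
    (Nat.dvd_prime_pow hp).1 (by rw [← hcm]; exact dvd_pow_self _ hr.ne')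
  have hrM : r * M = m := by
    rw [hM, ← pow_mul] at hcm
    have := Nat.pow_right_injective hp.two_le hcm
    rw [mul_comm]; exact this
  have ham : a ∈ maximalIdeal R := by
    rw [mem_maximalIdeal, mem_nonunits_iff]
    intro hu
    have := hu.pow 3
    rw [ha3] at this
    exact not_isUnit_zero this
  have hdvd : ∀ J : Ideal R, J ≤ maximalIdeal R → Nat.card J ∣ p ^ M := by
    intro J hJ
    rw [← hM]
    exact AddSubgroup.card_dvd_of_le (H := J.toAddSubgroup) (K := (maximalIdeal R).toAddSubgroup) hJ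
  obtain ⟨s, -, hs⟩ : ∃ s ≤ M, Nat.card (Ideal.span {a ^ 2} : Ideal R) = p ^ s := by
    refine (Nat.dvd_prime_pow hp).1 (hdvd _ ?_)
    rw [Ideal.span_singleton_le_iff_mem]
    exact Ideal.pow_mem_of_mem _ ham 2 (by norm_num)
  obtain ⟨f', -, hf'⟩ : ∃ f' ≤ M, Nat.card (R ⧸ maximalIdeal R) = p ^ f' := by
    refine (Nat.dvd_prime_pow hp).1 ?_
    refine (Dvd.intro _ (card_am ha).symm).trans (hdvd (Ideal.span {a}) ?_)
    rw [Ideal.span_singleton_le_iff_mem]
    exact ham
  have hf1 : 1 ≤ f' := by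
    rcases Nat.eq_zero_or_pos f' with h | h
    · have := two_le_q (R := R)
      rw [hf', h, pow_zero] at this
      omega
    · exact h
  rw [hf', hs, ← pow_mul, ← pow_add] at hb
  have hlin : κ * M ≤ f' + s := by
    rw [hM, hf', hs, ← Nat.cast_mul, ← pow_add, Nat.cast_pow, Nat.cast_pow,
      ← Real.rpow_natCast, ← Real.rpow_natCast, ← Real.rpow_mul (by linarith)] at hκ
    have := (Real.rpow_le_rpow_left_iff hp1).1 hκ
    push_cast at this
    linarith
  have h1 := key κ f' r M s (by exact_mod_cast hf1) (Nat.cast_nonneg s) (Nat.cast_nonneg r) hlin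
  have h2 : κ * ((r : ℝ) * M) = κ * m := by
    rw [← hrM]; push_cast; ring
  rw [h2] at h1
  have h4 : (p : ℝ) ^ (2 * Real.sqrt (κ * m) - 1) ≤ ((p ^ (f' * r + s) : ℕ) : ℝ) := by
    rw [Nat.cast_pow, ← Real.rpow_natCast]
    refine Real.rpow_le_rpow_of_exponent_le hp1.le ?_
    push_cast
    exact h1
  have h5 : ((p ^ (f' * r + s) : ℕ) : ℝ) ≤ 2 * (Nat.card (ConjClasses Q) : ℝ) := by
    exact_mod_cast hb
  exact h4.trans (h5.trans (mul_le_mul_of_nonneg_left (section_classes G H Q f hf) (by norm_num)))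

lemma quot_order {p n : ℕ} (hp : p.Prime) (G : Type) [Group G] (hG : Nat.card G = p ^ n)
    (H : Subgroup G) (Q : Type) [Group Q] (f : H →* Q) (hf : Function.Surjective f) :
    ∃ m, Nat.card Q = p ^ m := by
  obtain ⟨m, _, hm⟩ : ∃ m ≤ n, Nat.card Q = p ^ m := by
    refine (Nat.dvd_prime_pow hp).1 ?_
    rw [← hG]
    exact (Subgroup.card_dvd_of_surjective f hf).trans (Subgroup.card_subgroup_dvd_card H)
  exact ⟨m, hm⟩

lemma sequence_part (p : ℕ) (hp : p.Prime) (P : ℕ → Type) [∀ n, Group (P n)]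
    (hP : ∀ n, Nat.card (P n) = p ^ n)
    (hlim : Tendsto (fun n : ℕ => Real.log (Nat.card (ConjClasses (P n))) / Real.sqrt n)
      atTop (𝓝 0))
    (κ δ c : ℝ) (hκ : 0 < κ) (hδ : 0 < δ) (hc : c < 2 * Real.sqrt (κ * δ)) :
    ∀ᶠ n : ℕ in atTop, ∀ (H : Subgroup (P n)) (Q : Type) [Group Q] (f : H →* Q),
      Function.Surjective f → ∀ (R : Type) [CommRing R] [IsLocalRing R] [Finite R] (r : ℕ),
      0 < r → IsStandard R r Q → Cubic κ R → (H.index : ℝ) ≤ (p : ℝ) ^ (c * Real.sqrt n) →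
      (Nat.card Q : ℝ) < (p : ℝ) ^ (δ * n) := by
  have hp1 : (1 : ℝ) < p := by exact_mod_cast hp.one_lt
  have hlogp : 0 < Real.log p := Real.log_pos hp1
  set γ := 2 * Real.sqrt (κ * δ) - c with hγ
  have hγ0 : 0 < γ := by rw [hγ]; linarith
  have hev1 : ∀ᶠ n : ℕ in atTop,
      Real.log (Nat.card (ConjClasses (P n))) / Real.sqrt n < Real.log p * (γ / 2) :=
    hlim.eventually (gt_mem_nhds (by positivity))
  have hev2 : ∀ᶠ n : ℕ in atTop, 4 / γ < Real.sqrt n :=
    (Real.tendsto_sqrt_atTop.comp tendsto_natCast_atTop_atTop).eventually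
      (eventually_gt_atTop _)
  filter_upwards [hev1, hev2, eventually_ge_atTop 1] with n h1 h2 hn1
  intro H Q _ f hf R _ _ _ r hr hQ hR hidx
  by_contra hcon
  push Not at hcon
  have hfin : Finite (P n) := Nat.finite_of_card_ne_zero (by rw [hP]; exact (pow_pos hp.pos n).ne')
  obtain ⟨m, hm⟩ := quot_order hp (P n) (hP n) H Q f hf
  have hmδ : δ * n ≤ m := by
    rw [hm, Nat.cast_pow, ← Real.rpow_natCast] at hcon
    exact (Real.rpow_le_rpow_left_iff hp1).1 hcon
  have h3 := section_part (P n) H Q f hf R r hr hQ κ hR p m hp hm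
  have hk0 := classes_pos (P n)
  have hi0 := index_pos (P n) H
  have hlog2 : Real.log 2 ≤ Real.log p :=
    Real.log_le_log (by norm_num) (by exact_mod_cast hp.two_le)
  have h4 : (2 * Real.sqrt (κ * m) - 1) * Real.log p ≤
      Real.log p + (c * Real.sqrt n * Real.log p +
        Real.log (Nat.card (ConjClasses (P n)))) := by
    have h5 := Real.log_le_log (by positivity) h3
    rw [Real.log_rpow (by linarith), Real.log_mul (by norm_num) (by positivity),
      Real.log_mul hi0.ne' hk0.ne'] at h5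
    have h6 := Real.log_le_log hi0 hidx
    rw [Real.log_rpow (by linarith)] at h6
    linarith
  have hsn : 0 < Real.sqrt n := Real.sqrt_pos.2 (by exact_mod_cast hn1)
  have h7 : Real.log (Nat.card (ConjClasses (P n))) < Real.log p * (γ / 2) * Real.sqrt n := by
    rwa [div_lt_iff₀ hsn] at h1
  have h8 : Real.sqrt (κ * δ) * Real.sqrt n ≤ Real.sqrt (κ * m) := by
    rw [← Real.sqrt_mul (by positivity)]
    refine Real.sqrt_le_sqrt ?_
    nlinarith
  have h9 : 4 < γ * Real.sqrt n := by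
    rw [div_lt_iff₀ hγ0] at h2
    linarith
  have h10 : (2 * Real.sqrt (κ * m) - 1) * Real.log p <
      (1 + c * Real.sqrt n + γ / 2 * Real.sqrt n) * Real.log p := by nlinarith
  have h11 := lt_of_mul_lt_mul_right h10 hlogp.le
  have h12 : 2 * Real.sqrt (κ * δ) = γ + c := by rw [hγ]; ring
  have h13 : 2 * (Real.sqrt (κ * δ) * Real.sqrt n) = (γ + c) * Real.sqrt n := by
    rw [← h12]; ring
  nlinarith

/-- Let `R` be a finite local ring, `m` its maximal ideal, `Q` a standard group of dimension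
`r > 0` over `R`. (1) `|R / m| ^ r |a ^ 2 R| ≤ 2 k(Q)` for all `a ≠ 0` in `R` with `a ^ 3 = 0`.
(2) Finite local principal ideal rings `R` that are not fields have an `a ≠ 0` with `a ^ 3 = 0` and
`|m| ^ (1 / 3) ≤ |R / m| |a ^ 2 R|`; finite local rings `R` with an element `t` such that
`t ^ b = 0` and `|R| = |R / t R| ^ b` have an `a ≠ 0` with `a ^ 3 = 0` and
`|m| ^ ((b - 2 i) / b) ≤ |R / m| |a ^ 2 R|` (`1 ≤ i`, `2 i ≤ b ≤ 3 i`). (3) If `a ≠ 0`, `a ^ 3 = 0`, `|m| ^ κ ≤ |R / m| |a ^ 2 R|`, and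
`Q`, of order `p ^ n`, is a quotient of a subgroup `H` of a finite group `G`, then
`p ^ (2 √(κ n) - 1) ≤ 2 |G : H| k(G)`. (4) If `|P n| = p ^ n` and `log k(P n) / √n → 0`, then for
all large `n` no quotient of order at least `p ^ (δ n)` of a subgroup of index at most
`p ^ (c √n)` of `P n`, `c < 2 √(κ δ)`, is such a group. -/
theorem result :
    (∀ (R : Type) [CommRing R] [IsLocalRing R] [Finite R] (r : ℕ) (Q : Type) [Group Q],
      0 < r → IsStandard R r Q → ∀ a : R, a ≠ 0 → a ^ 3 = 0 →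
      Nat.card (R ⧸ maximalIdeal R) ^ r * Nat.card (Ideal.span {a ^ 2} : Ideal R) ≤
        2 * Nat.card (ConjClasses Q)) ∧
    (∀ (R : Type) [CommRing R] [IsLocalRing R] [Finite R], (maximalIdeal R).IsPrincipal →
      maximalIdeal R ≠ ⊥ → Cubic (1 / 3) R) ∧
    (∀ (R : Type) [CommRing R] [IsLocalRing R] [Finite R] (t : R) (b i : ℕ), t ^ b = 0 →
      Nat.card R = Nat.card (R ⧸ (Ideal.span {t} : Ideal R)) ^ b → 1 ≤ i → 2 * i ≤ b →
      b ≤ 3 * i → Cubic (((b : ℝ) - 2 * i) / b) R) ∧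
    (∀ (G : Type) [Group G] [Finite G] (H : Subgroup G) (Q : Type) [Group Q] (f : H →* Q),
      Function.Surjective f → ∀ (R : Type) [CommRing R] [IsLocalRing R] [Finite R] (r : ℕ),
      0 < r → IsStandard R r Q → ∀ κ : ℝ, Cubic κ R → ∀ p m : ℕ, p.Prime →
      Nat.card Q = p ^ m →
      (p : ℝ) ^ (2 * Real.sqrt (κ * m) - 1) ≤
        2 * ((H.index : ℝ) * (Nat.card (ConjClasses G) : ℝ))) ∧
    (∀ p : ℕ, p.Prime → ∀ (P : ℕ → Type) [∀ n, Group (P n)], (∀ n, Nat.card (P n) = p ^ n) →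
      Tendsto (fun n : ℕ => Real.log (Nat.card (ConjClasses (P n))) / Real.sqrt n)
        atTop (𝓝 0) →
      ∀ κ δ c : ℝ, 0 < κ → 0 < δ → c < 2 * Real.sqrt (κ * δ) →
        ∀ᶠ n : ℕ in atTop, ∀ (H : Subgroup (P n)) (Q : Type) [Group Q] (f : H →* Q),
          Function.Surjective f → ∀ (R : Type) [CommRing R] [IsLocalRing R] [Finite R] (r : ℕ),
          0 < r → IsStandard R r Q → Cubic κ R →
          (H.index : ℝ) ≤ (p : ℝ) ^ (c * Real.sqrt n) →
          (Nat.card Q : ℝ) < (p : ℝ) ^ (δ * n)) :=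
  ⟨fun R _ _ _ r Q _ hr hQ a ha ha3 => standard_classes R r Q hr hQ a ha ha3,
    fun R _ _ _ hm hne => principal_cubic R hm hne,
    fun R _ _ _ t b i hb hc hi h2 h3 => flat_cubic R t b i hb hc hi h2 h3,
    fun G _ _ H Q _ f hf R _ _ _ r hr hQ κ hR p m hp hc =>
      section_part G H Q f hf R r hr hQ κ hR p m hp hc,
    fun p hp P _ hP hlim κ δ c hκ hδ hc => sequence_part p hp P hP hlim κ δ c hκ hδ hc⟩

end Pool.Agent.Results.MP_e2add9_al.AnalyticGroups
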