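import Mathlib
import Pool.Agent.H40P.Layer

/-!
# Groups of small rank have many conjugacy classes
-/

set_option autoImplicit false

open Filter Topology
open scoped commutatorElement

namespace Pool.Agent.Results.MP_e2add9_al.LargeRank

open Pool.Agent.H40P

/-- Every normal subgroup of `Q` can be generated by `r` elements. -/
def NormalRank (r : ℕ) (Q : Type) [Group Q] : Prop :=
  ∀ N : Subgroup Q, N.Normal → ∃ S : Finset Q, S.card ≤ r ∧ Subgroup.closure (S : Set Q) = N

lemma classes_pos (G : Type) [Group G] [Finite G] : (0 : ℝ) < Nat.card (ConjClasses G) := by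
  have : Finite (ConjClasses G) := Quotient.finite _
  exact_mod_cast Nat.card_pos

lemma index_pos (G : Type) [Group G] [Finite G] (H : Subgroup G) : (0 : ℝ) < H.index := by
  have := Subgroup.index_ne_zero_of_finite (H := H)
  exact_mod_cast Nat.pos_of_ne_zero this

lemma section_classes (G : Type) [Group G] [Finite G] (H : Subgroup G) (Q : Type) [Group Q]
    (f : H →* Q) (hf : Function.Surjective f) :
    (Nat.card (ConjClasses Q) : ℝ) ≤ (H.index : ℝ) * (Nat.card (ConjClasses G) : ℝ) := by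
  exact_mod_cast (conj_quot f hf).trans (conj_subgroup H)

lemma rank_part (G : Type) [Group G] [Finite G] (H : Subgroup G) (Q : Type) [Group Q]
    (f : H →* Q) (hf : Function.Surjective f) (p m r l : ℕ) (hp : p.Prime)
    (hc : Nat.card Q = p ^ m) (hQ : NormalRank r Q) (hrl : r ≤ 2 ^ l) :
    (p : ℝ) ^ (((m : ℝ) - r * (l + 1)) / r) ≤
      2 * (p : ℝ) ^ (r * (l + 1)) * ((H.index : ℝ) * (Nat.card (ConjClasses G) : ℝ)) := by
  have hfin : Finite Q := Finite.of_surjective f hf
  have hp1 : (1 : ℝ) < p := by exact_mod_cast hp.one_lt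
  obtain ⟨e, he1, he2⟩ := rank_bound hp hc hQ hrl
  have h1 : ((m : ℝ) - r * (l + 1)) / r ≤ e := by
    rcases Nat.eq_zero_or_pos r with hr | hr
    · rw [hr]; simp
    · have hr' : (0 : ℝ) < r := by exact_mod_cast hr
      rw [div_le_iff₀ hr']
      have h2 : (m : ℝ) ≤ r * (l + 1) + r * e := by exact_mod_cast he1
      linarith
  have h4 : (p : ℝ) ^ (((m : ℝ) - r * (l + 1)) / r) ≤ ((p ^ e : ℕ) : ℝ) := by
    rw [Nat.cast_pow, ← Real.rpow_natCast]
    exact Real.rpow_le_rpow_of_exponent_le hp1.le h1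
  have h5 : ((p ^ e : ℕ) : ℝ) ≤
      2 * ((p : ℝ) ^ (r * (l + 1)) * (Nat.card (ConjClasses Q) : ℝ)) := by exact_mod_cast he2
  refine h4.trans (h5.trans ?_)
  rw [← mul_assoc]
  exact mul_le_mul_of_nonneg_left (section_classes G H Q f hf) (by positivity)

lemma quot_order {p n : ℕ} (hp : p.Prime) (G : Type) [Group G] (hG : Nat.card G = p ^ n)
    (H : Subgroup G) (Q : Type) [Group Q] (f : H →* Q) (hf : Function.Surjective f) :
    ∃ m, Nat.card Q = p ^ m := by
  obtain ⟨m, _, hm⟩ : ∃ m ≤ n, Nat.card Q = p ^ m := by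
    refine (Nat.dvd_prime_pow hp).1 ?_
    rw [← hG]
    exact (Subgroup.card_dvd_of_surjective f hf).trans (Subgroup.card_subgroup_dvd_card H)
  exact ⟨m, hm⟩

/-- The error terms tend to zero. -/
lemma errors (a b c : ℝ) : Tendsto (fun n : ℕ => a / Real.logb 2 n +
    b / Real.sqrt (Real.logb 2 n) + c * Real.sqrt (Real.logb 2 n / n)) atTop (𝓝 0) := by
  have hlog : Tendsto (fun n : ℕ => Real.logb 2 n) atTop atTop :=
    (Real.tendsto_logb_atTop (by norm_num)).comp tendsto_natCast_atTop_atTop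
  have h1 : Tendsto (fun n : ℕ => a / Real.logb 2 n) atTop (𝓝 0) := hlog.const_div_atTop a
  have h2 : Tendsto (fun n : ℕ => b / Real.sqrt (Real.logb 2 n)) atTop (𝓝 0) :=
    (Real.tendsto_sqrt_atTop.comp hlog).const_div_atTop b
  have h3 : Tendsto (fun n : ℕ => Real.logb 2 n / n) atTop (𝓝 0) := by
    have h4 : Tendsto (fun x : ℝ => Real.log x / x) atTop (𝓝 0) := by
      have := Real.isLittleO_log_id_atTop.tendsto_div_nhds_zero
      exact this
    have h5 := (h4.comp tendsto_natCast_atTop_atTop).const_mul (1 / Real.log 2)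
    rw [mul_zero] at h5
    refine h5.congr fun n => ?_
    simp only [Function.comp_apply, Real.logb]
    ring
  have h6 : Tendsto (fun n : ℕ => c * Real.sqrt (Real.logb 2 n / n)) atTop (𝓝 0) := by
    have := (Real.continuous_sqrt.tendsto 0).comp h3
    rw [Real.sqrt_zero] at this
    simpa using this.const_mul c
  simpa using (h1.add h2).add h6

lemma sequence_rank (p : ℕ) (hp : p.Prime) (P : ℕ → Type) [∀ n, Group (P n)]
    (hP : ∀ n, Nat.card (P n) = p ^ n)
    (hlim : Tendsto (fun n : ℕ => Real.log (Nat.card (ConjClasses (P n))) / Real.sqrt n)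
      atTop (𝓝 0))
    (δ C c : ℝ) (hδ : 0 < δ) (hc : c < Real.sqrt (2 * δ)) :
    ∀ᶠ n : ℕ in atTop, ∀ (H : Subgroup (P n)) (Q : Type) [Group Q] (f : H →* Q),
      Function.Surjective f → (H.index : ℝ) ≤ (p : ℝ) ^ (C * Real.sqrt n) →
      (p : ℝ) ^ (δ * n) ≤ (Nat.card Q : ℝ) → ∀ r : ℕ, NormalRank r Q →
      c * Real.sqrt (n / Real.logb 2 n) ≤ r := by
  have hp1 : (1 : ℝ) < p := by exact_mod_cast hp.one_lt
  have hlogp : 0 < Real.log p := Real.log_pos hp1
  rcases le_or_gt c 0 with hc0 | hc0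
  · refine Eventually.of_forall fun n H Q _ f _ _ _ r _ => ?_
    exact (mul_nonpos_of_nonpos_of_nonneg hc0 (Real.sqrt_nonneg _)).trans (Nat.cast_nonneg r)
  have hc2 : c ^ 2 / 2 < δ := by
    have h1 : c ^ 2 < 2 * δ := by
      have := Real.lt_sqrt hc0.le |>.1 hc
      exact this
    linarith
  set D := |C| + 2 with hD
  have hD0 : 0 ≤ |C| := abs_nonneg C
  have hev1 : ∀ᶠ n : ℕ in atTop,
      Real.log (Nat.card (ConjClasses (P n))) / Real.sqrt n < Real.log p * 1 :=
    hlim.eventually (gt_mem_nhds (by positivity))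
  have hev2 := (errors (2 * c ^ 2) (2 * c + c * D + c) (c / 2)).eventually
    (gt_mem_nhds (show (0 : ℝ) < δ - c ^ 2 / 2 by linarith))
  have hlog : Tendsto (fun n : ℕ => Real.logb 2 n) atTop atTop :=
    (Real.tendsto_logb_atTop (by norm_num)).comp tendsto_natCast_atTop_atTop
  have hev3 := hlog.eventually (eventually_ge_atTop (max 1 (c ^ 2)))
  filter_upwards [hev1, hev2, hev3, eventually_ge_atTop 1] with n h1 h2 h3 hn1
  intro H Q _ f hf hidx hcard r hr
  by_contra hcon
  push Not at hcon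
  have hfin : Finite (P n) := Nat.finite_of_card_ne_zero (by rw [hP]; exact (pow_pos hp.pos n).ne')
  obtain ⟨m, hm⟩ := quot_order hp (P n) (hP n) H Q f hf
  have hmδ : δ * n ≤ m := by
    rw [hm, Nat.cast_pow, ← Real.rpow_natCast] at hcard
    exact (Real.rpow_le_rpow_left_iff hp1).1 hcard
  have hn0 : (0 : ℝ) < n := by exact_mod_cast hn1
  set L := Real.logb 2 n with hL
  have hL1 : 1 ≤ L := (le_max_left _ _).trans h3
  have hLc : c ^ 2 ≤ L := (le_max_right _ _).trans h3
  have hL0 : 0 < L := by linarith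
  set l := Nat.clog 2 r with hl
  have hrl : r ≤ 2 ^ l := Nat.le_pow_clog (by norm_num) r
  have h4 := rank_part (P n) H Q f hf p m r l hp hm hr hrl
  have hk0 := classes_pos (P n)
  have hi0 := index_pos (P n) H
  have hlog2 : Real.log 2 ≤ Real.log p :=
    Real.log_le_log (by norm_num) (by exact_mod_cast hp.two_le)
  have hsn : 0 < Real.sqrt n := Real.sqrt_pos.2 hn0
  -- take logarithms
  have h5 : ((m : ℝ) - r * (l + 1)) / r ≤ 1 + r * (l + 1) + C * Real.sqrt n + Real.sqrt n := by
    have h6 := Real.log_le_log (by positivity) h4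
    rw [Real.log_rpow (by linarith), Real.log_mul (by positivity) (by positivity),
      Real.log_mul (by norm_num) (by positivity), Real.log_pow,
      Real.log_mul hi0.ne' hk0.ne'] at h6
    have h7 := Real.log_le_log hi0 hidx
    rw [Real.log_rpow (by linarith)] at h7
    have h8 : Real.log (Nat.card (ConjClasses (P n))) < Real.log p * 1 * Real.sqrt n := by
      rwa [div_lt_iff₀ hsn] at h1
    push_cast at h6
    have h9 : ((m : ℝ) - r * (l + 1)) / r * Real.log p ≤
        (1 + r * (l + 1) + C * Real.sqrt n + Real.sqrt n) * Real.log p := by nlinarith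
    exact le_of_mul_le_mul_right h9 hlogp
  -- `r = 0` is impossible
  have hr0 : 0 < r := by
    rcases Nat.eq_zero_or_pos r with h | h
    · exfalso
      subst h
      obtain ⟨S, hS, hS2⟩ := hr ⊤ inferInstance
      have hSe : S = ∅ := Finset.card_eq_zero.1 (Nat.le_zero.1 hS)
      rw [hSe, Finset.coe_empty, Subgroup.closure_empty] at hS2
      have hQ1 : Nat.card Q = 1 := by
        rw [← Subgroup.card_top (G := Q), ← hS2, Subgroup.card_bot]
      rw [hm] at hQ1
      have hm0 : m = 0 := by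
        by_contra hne
        have := Nat.one_lt_pow hne hp.one_lt
        omega
      rw [hm0, Nat.cast_zero] at hmδ
      nlinarith
    · exact h
  have hr' : (0 : ℝ) < r := by exact_mod_cast hr0
  have hrone : (1 : ℝ) ≤ r := by exact_mod_cast hr0
  have h6 : (m : ℝ) ≤ r * (l + 1) + r * (1 + r * (l + 1) + C * Real.sqrt n + Real.sqrt n) := by
    rw [div_le_iff₀ hr'] at h5
    linarith
  -- the size of `r`
  have hnL : 0 ≤ (n : ℝ) / L := by positivity
  set s := Real.sqrt (n / L) with hs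
  have hs2 : s ^ 2 = n / L := Real.sq_sqrt hnL
  have hs0 : 0 ≤ s := Real.sqrt_nonneg _
  have hr2 : (r : ℝ) ^ 2 ≤ c ^ 2 * (n / L) := by
    have : (r : ℝ) ^ 2 ≤ (c * s) ^ 2 := by
      exact pow_le_pow_left₀ hr'.le hcon.le 2
    rwa [mul_pow, hs2] at this
  have hr3 : (r : ℝ) ^ 2 ≤ n := by
    refine hr2.trans ?_
    rw [mul_div_assoc', div_le_iff₀ hL0]
    nlinarith
  have hlr : (l : ℝ) ≤ L / 2 + 1 := by
    have h7 : Real.logb 2 r ≤ L / 2 := by
      have h8 : Real.logb 2 ((r : ℝ) ^ 2) ≤ L :=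
        Real.logb_le_logb_of_le (by norm_num) (by positivity) hr3
      rw [Real.logb_pow] at h8
      push_cast at h8
      linarith
    rcases Nat.lt_or_ge 1 r with h8 | h8
    · have h9 : 2 ^ (l - 1) < r := Nat.pow_pred_clog_lt_self (by norm_num) h8
      have h10 : ((l - 1 : ℕ) : ℝ) ≤ Real.logb 2 r := by
        rw [Real.le_logb_iff_rpow_le (by norm_num) hr', Real.rpow_natCast]
        exact_mod_cast h9.le
      have h11 : (l : ℝ) ≤ ((l - 1 : ℕ) : ℝ) + 1 := by
        have : l ≤ (l - 1) + 1 := by omega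
        exact_mod_cast this
      linarith
    · have h9 : r = 1 := by omega
      have : l = 0 := by rw [hl, h9]; simp
      rw [this, Nat.cast_zero]
      linarith
  -- final estimate
  have e1 : (r : ℝ) * (l + 1) ≤ r * (L / 2 + 2) := by
    refine mul_le_mul_of_nonneg_left (by linarith) hr'.le
  have e2 : (r : ℝ) * (r * (l + 1)) ≤ c ^ 2 / 2 * n + 2 * c ^ 2 * (n / L) := by
    calc (r : ℝ) * (r * (l + 1)) ≤ r * (r * (L / 2 + 2)) :=
          mul_le_mul_of_nonneg_left e1 hr'.le
      _ = r ^ 2 * (L / 2 + 2) := by ring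
      _ ≤ c ^ 2 * (n / L) * (L / 2 + 2) := mul_le_mul_of_nonneg_right hr2 (by linarith)
      _ = c ^ 2 / 2 * n + 2 * c ^ 2 * (n / L) := by field_simp
  have hsq : s = Real.sqrt n / Real.sqrt L := Real.sqrt_div' _ hL0.le
  have hsL : 0 < Real.sqrt L := Real.sqrt_pos.2 hL0
  have hnn : Real.sqrt n * Real.sqrt n = n := Real.mul_self_sqrt hn0.le
  have hLL : Real.sqrt L * Real.sqrt L = L := Real.mul_self_sqrt hL0.le
  have hsn1 : 1 ≤ Real.sqrt n := by
    rw [Real.one_le_sqrt]; exact_mod_cast hn1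
  have hsL1 : 1 ≤ Real.sqrt L := by rw [Real.one_le_sqrt]; exact hL1
  have hrs : (r : ℝ) ≤ c * (Real.sqrt n / Real.sqrt L) := by rw [← hsq]; exact hcon.le
  have e3 : (r : ℝ) * (L / 2 + 2) ≤ n * (c / 2 * Real.sqrt (L / n) + 2 * c / Real.sqrt L) := by
    have h7 : Real.sqrt (L / n) = Real.sqrt L / Real.sqrt n := Real.sqrt_div' _ hn0.le
    rw [h7]
    calc (r : ℝ) * (L / 2 + 2) ≤ c * (Real.sqrt n / Real.sqrt L) * (L / 2 + 2) :=
          mul_le_mul_of_nonneg_right hrs (by linarith)
      _ = c / 2 * (Real.sqrt n * (L / Real.sqrt L)) + 2 * c / Real.sqrt L * Real.sqrt n := by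
          ring
      _ = c / 2 * (Real.sqrt n * Real.sqrt L) + 2 * c / Real.sqrt L * Real.sqrt n := by
          rw [Real.div_sqrt]
      _ ≤ c / 2 * (Real.sqrt n * Real.sqrt L) + 2 * c / Real.sqrt L * n := by
          have : Real.sqrt n ≤ n := by nlinarith
          have h9 : 0 ≤ 2 * c / Real.sqrt L := by positivity
          nlinarith [mul_le_mul_of_nonneg_left this h9]
      _ = n * (c / 2 * (Real.sqrt L / Real.sqrt n) + 2 * c / Real.sqrt L) := by
          have h10 : (n : ℝ) / Real.sqrt n = Real.sqrt n := Real.div_sqrt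
          have h11 : (n : ℝ) * (c / 2 * (Real.sqrt L / Real.sqrt n)) =
            c / 2 * (((n : ℝ) / Real.sqrt n) * Real.sqrt L) := by ring
          rw [mul_add, h11, h10]
          ring
  have e4 : (r : ℝ) * (1 + C * Real.sqrt n + Real.sqrt n) ≤
      n * ((c * D + c) / Real.sqrt L) := by
    have h7 : 1 + C * Real.sqrt n + Real.sqrt n ≤ (D + 1) * Real.sqrt n := by
      have h8 : C * Real.sqrt n ≤ |C| * Real.sqrt n :=
        mul_le_mul_of_nonneg_right (le_abs_self C) hsn.le
      rw [hD]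
      nlinarith
    have h9 : 0 ≤ (D + 1) * Real.sqrt n := by rw [hD]; positivity
    calc (r : ℝ) * (1 + C * Real.sqrt n + Real.sqrt n) ≤ r * ((D + 1) * Real.sqrt n) :=
          mul_le_mul_of_nonneg_left h7 hr'.le
      _ ≤ c * (Real.sqrt n / Real.sqrt L) * ((D + 1) * Real.sqrt n) :=
          mul_le_mul_of_nonneg_right hrs h9
      _ = (Real.sqrt n * Real.sqrt n) * ((c * D + c) / Real.sqrt L) := by ring
      _ = n * ((c * D + c) / Real.sqrt L) := by rw [hnn]
  have h2' : 2 * c ^ 2 / L + (2 * c + c * D + c) / Real.sqrt L + c / 2 * Real.sqrt (L / n) <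
      δ - c ^ 2 / 2 := h2
  have h20 : (m : ℝ) ≤ n * (c ^ 2 / 2 + (2 * c ^ 2 / L + (2 * c + c * D + c) / Real.sqrt L +
      c / 2 * Real.sqrt (L / n))) := by
    calc (m : ℝ) ≤ r * (l + 1) + r * (1 + r * (l + 1) + C * Real.sqrt n + Real.sqrt n) := h6
      _ = r * (l + 1) + r * (r * (l + 1)) + r * (1 + C * Real.sqrt n + Real.sqrt n) := by ring
      _ ≤ n * (c / 2 * Real.sqrt (L / n) + 2 * c / Real.sqrt L) +
          (c ^ 2 / 2 * n + 2 * c ^ 2 * (n / L)) + n * ((c * D + c) / Real.sqrt L) :=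
          add_le_add (add_le_add (e1.trans e3) e2) e4
      _ = _ := by ring
  nlinarith

/-- (1) Let `Q` be a quotient of a subgroup `H` of a finite group `G`, `p` a prime, `|Q| = p ^ m`.
If every normal subgroup of `Q` is generated by `r` elements and `r ≤ 2 ^ l`, then
`p ^ ((m - r (l + 1)) / r) ≤ 2 p ^ (r (l + 1)) |G : H| k(G)`.
(2) Let `|P n| = p ^ n` and `log k(P n) / √n → 0`, let `δ > 0`, `C` be real and `c < √(2 δ)`. Then
for all large `n`: if `Q` is a quotient of order at least `p ^ (δ n)` of a subgroup of index at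
most `p ^ (C √n)` of `P n` and every normal subgroup of `Q` is generated by `r` elements, then
`r ≥ c √(n / log₂ n)`. -/
theorem result :
    (∀ (G : Type) [Group G] [Finite G] (H : Subgroup G) (Q : Type) [Group Q] (f : H →* Q),
      Function.Surjective f → ∀ p m r l : ℕ, p.Prime → Nat.card Q = p ^ m → NormalRank r Q →
      r ≤ 2 ^ l →
      (p : ℝ) ^ (((m : ℝ) - r * (l + 1)) / r) ≤
        2 * (p : ℝ) ^ (r * (l + 1)) * ((H.index : ℝ) * (Nat.card (ConjClasses G) : ℝ))) ∧
    (∀ p : ℕ, p.Prime → ∀ (P : ℕ → Type) [∀ n, Group (P n)], (∀ n, Nat.card (P n) = p ^ n) →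
      Tendsto (fun n : ℕ => Real.log (Nat.card (ConjClasses (P n))) / Real.sqrt n)
        atTop (𝓝 0) →
      ∀ δ C c : ℝ, 0 < δ → c < Real.sqrt (2 * δ) →
        ∀ᶠ n : ℕ in atTop, ∀ (H : Subgroup (P n)) (Q : Type) [Group Q] (f : H →* Q),
          Function.Surjective f → (H.index : ℝ) ≤ (p : ℝ) ^ (C * Real.sqrt n) →
          (p : ℝ) ^ (δ * n) ≤ (Nat.card Q : ℝ) → ∀ r : ℕ, NormalRank r Q →
          c * Real.sqrt (n / Real.logb 2 n) ≤ r) :=
  ⟨fun G _ _ H Q _ f hf p m r l hp hc hQ hrl => rank_part G H Q f hf p m r l hp hc hQ hrl,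
    fun p hp P _ hP hlim δ C c hδ hc => sequence_rank p hp P hP hlim δ C c hδ hc⟩

end Pool.Agent.Results.MP_e2add9_al.LargeRank
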