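import Mathlib
import Pool.Agent.H40.AlgGroup

/-!
# Adjoint groups have many conjugacy classes
-/

set_option autoImplicit false

open Filter Topology

namespace Pool.Agent.Results.MP_e2add9_al.NoAdjointSections

open Pool.Agent.H40.AlgGroup

/-- The group `A` is the adjoint (circle) group of some associative ring: there is a ring `J`
(no identity assumed) and a bijection `e : A ≃ J` which turns the multiplication of `A` into
the circle operation `x + y + x * y`. -/
def IsAdjoint (A : Type) [Group A] : Prop :=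
  ∃ (J : Type) (_ : NonUnitalRing J) (e : A ≃ J), ∀ g h : A, e (g * h) = e g + e h + e g * e h

lemma real_bound {s n : ℕ} (h : n ≤ s * (2 * s + 1)) :
    (Real.sqrt (8 * n + 1) - 1) / 4 ≤ s := by
  have h1 : (n : ℝ) ≤ s * (2 * s + 1) := by exact_mod_cast h
  have h2 : Real.sqrt (8 * n + 1) ≤ 4 * s + 1 := by
    rw [Real.sqrt_le_left (by positivity)]
    nlinarith
  linarith

lemma rpow_bound {p s n : ℕ} (hp : p.Prime) (h : n ≤ s * (2 * s + 1)) :
    (p : ℝ) ^ ((Real.sqrt (8 * n + 1) - 1) / 4) ≤ ((p ^ s : ℕ) : ℝ) := by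
  rw [Nat.cast_pow, ← Real.rpow_natCast]
  exact Real.rpow_le_rpow_of_exponent_le (by exact_mod_cast hp.one_lt.le) (real_bound h)

lemma centralizer_part (A : Type) [Group A] (hA : IsAdjoint A) (p n : ℕ) (hp : p.Prime)
    (hc : Nat.card A = p ^ n) (g : A) :
    (p : ℝ) ^ ((Real.sqrt (8 * n + 1) - 1) / 4) ≤ (Nat.card (Subgroup.centralizer {g}) : ℝ) := by
  obtain ⟨J, _, e, he⟩ := hA
  obtain ⟨s, hs, hn⟩ := centralizer_bound e he hp hc g
  rw [hs]
  exact rpow_bound hp hn

lemma classes_part (A : Type) [Group A] (hA : IsAdjoint A) (p n : ℕ) (hp : p.Prime)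
    (hc : Nat.card A = p ^ n) :
    (p : ℝ) ^ ((Real.sqrt (8 * n + 1) - 1) / 4) ≤ (Nat.card (ConjClasses A) : ℝ) := by
  obtain ⟨J, _, e, he⟩ := hA
  obtain ⟨s, hs, hn⟩ := class_bound e he hp hc
  exact (rpow_bound hp hn).trans (by exact_mod_cast hs)

lemma classes_subgroup (G : Type) [Group G] [Finite G] (H : Subgroup G) :
    Nat.card (ConjClasses H) ≤ H.index * Nat.card (ConjClasses G) := by
  have h1 := card_comm_eq_card_conjClasses_mul_card G
  have h2 := card_comm_eq_card_conjClasses_mul_card H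
  have h3 : Nat.card { q : H × H // Commute q.1 q.2 } ≤
      Nat.card { q : G × G // Commute q.1 q.2 } := by
    refine Nat.card_le_card_of_injective
      (fun q => ⟨((q.1.1 : G), (q.1.2 : G)), ?_⟩) ?_
    · have := congrArg (fun z : H => (z : G)) q.2.eq
      exact this
    · rintro ⟨⟨a, b⟩, h⟩ ⟨⟨c, d⟩, h'⟩ hh
      have h4 := congrArg (fun z => (z : { q : G × G // Commute q.1 q.2 }).1) hh
      have h5 : (a : G) = c := congrArg Prod.fst h4
      have h6 : (b : G) = d := congrArg Prod.snd h4
      rw [Subtype.mk.injEq, Prod.mk.injEq]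
      exact ⟨Subtype.ext h5, Subtype.ext h6⟩
  rw [h1, h2, ← H.card_mul_index] at h3
  have h4 : Nat.card (ConjClasses H) * Nat.card H ≤
      (H.index * Nat.card (ConjClasses G)) * Nat.card H := by
    calc _ ≤ _ := h3
      _ = _ := by ring
  exact Nat.le_of_mul_le_mul_right h4 Nat.card_pos

lemma classes_quot {H A : Type} [Group H] [Group A] [Finite H] (f : H →* A)
    (hf : Function.Surjective f) : Nat.card (ConjClasses A) ≤ Nat.card (ConjClasses H) := by
  have : Finite (ConjClasses H) := Quotient.finite _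
  exact Nat.card_le_card_of_surjective (ConjClasses.map f) (ConjClasses.map_surjective hf)

lemma section_part (G : Type) [Group G] [Finite G] (H : Subgroup G) (A : Type) [Group A]
    (f : H →* A) (hf : Function.Surjective f) (hA : IsAdjoint A) (p m : ℕ) (hp : p.Prime)
    (hc : Nat.card A = p ^ m) :
    (p : ℝ) ^ ((Real.sqrt (8 * m + 1) - 1) / 4) ≤
      (H.index : ℝ) * (Nat.card (ConjClasses G) : ℝ) := by
  refine (classes_part A hA p m hp hc).trans ?_
  exact_mod_cast (classes_quot f hf).trans (classes_subgroup G H)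

lemma sequence_part (p : ℕ) (hp : p.Prime) (P : ℕ → Type) [∀ n, Group (P n)]
    (hP : ∀ n, Nat.card (P n) = p ^ n)
    (hlim : Tendsto (fun n : ℕ => Real.log (Nat.card (ConjClasses (P n))) / Real.sqrt n)
      atTop (𝓝 0))
    (δ c : ℝ) (hδ : 0 < δ) (hc : c < Real.sqrt (δ / 2)) :
    ∀ᶠ n : ℕ in atTop, ∀ (H : Subgroup (P n)) (A : Type) [Group A] (f : H →* A),
      Function.Surjective f → IsAdjoint A → (H.index : ℝ) ≤ (p : ℝ) ^ (c * Real.sqrt n) →
      (Nat.card A : ℝ) < (p : ℝ) ^ (δ * n) := by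
  have hp1 : (1 : ℝ) < p := by exact_mod_cast hp.one_lt
  have hlogp : 0 < Real.log p := Real.log_pos hp1
  set γ := Real.sqrt (δ / 2) - c with hγ
  have hγ0 : 0 < γ := by rw [hγ]; linarith
  have hev1 : ∀ᶠ n : ℕ in atTop,
      Real.log (Nat.card (ConjClasses (P n))) / Real.sqrt n < Real.log p * (γ / 2) :=
    hlim.eventually (gt_mem_nhds (by positivity))
  have hev2 : ∀ᶠ n : ℕ in atTop, 1 / γ ≤ Real.sqrt n :=
    (Real.tendsto_sqrt_atTop.comp tendsto_natCast_atTop_atTop).eventually
      (eventually_ge_atTop _)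
  filter_upwards [hev1, hev2, eventually_ge_atTop 1] with n h1 h2 hn1
  intro H A _ f hf hA hidx
  by_contra hcon
  push Not at hcon
  have hfin : Finite (P n) := Nat.finite_of_card_ne_zero (by rw [hP]; exact (pow_pos hp.pos n).ne')
  have hfinA : Finite A := Finite.of_surjective f hf
  obtain ⟨m, _, hm⟩ : ∃ m ≤ n, Nat.card A = p ^ m := by
    refine (Nat.dvd_prime_pow hp).1 ?_
    rw [← hP n]
    exact (Subgroup.card_dvd_of_surjective f hf).trans (Subgroup.card_subgroup_dvd_card H)
  have hmδ : δ * n ≤ m := by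
    rw [hm, Nat.cast_pow, ← Real.rpow_natCast] at hcon
    exact (Real.rpow_le_rpow_left_iff hp1).1 hcon
  have h3 := section_part (P n) H A f hf hA p m hp hm
  have hk0 : (0 : ℝ) < Nat.card (ConjClasses (P n)) := by
    have : Finite (ConjClasses (P n)) := Quotient.finite _
    exact_mod_cast Nat.card_pos
  have hi0 : (0 : ℝ) < H.index := by
    have := Subgroup.index_ne_zero_of_finite (H := H)
    exact_mod_cast Nat.pos_of_ne_zero this
  have h4 : (Real.sqrt (8 * m + 1) - 1) / 4 * Real.log p ≤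
      c * Real.sqrt n * Real.log p + Real.log (Nat.card (ConjClasses (P n))) := by
    have h5 := Real.log_le_log (by positivity) h3
    rw [Real.log_rpow (by linarith), Real.log_mul hi0.ne' hk0.ne'] at h5
    have h6 := Real.log_le_log hi0 hidx
    rw [Real.log_rpow (by linarith)] at h6
    linarith
  have hsn : 0 < Real.sqrt n := Real.sqrt_pos.2 (by exact_mod_cast hn1)
  have h7 : Real.log (Nat.card (ConjClasses (P n))) < Real.log p * (γ / 2) * Real.sqrt n := by
    rwa [div_lt_iff₀ hsn] at h1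
  have h8 : 4 * (Real.sqrt (δ / 2) * Real.sqrt n) ≤ Real.sqrt (8 * m + 1) := by
    rw [← Real.sqrt_mul (by positivity)]
    refine Real.le_sqrt_of_sq_le ?_
    rw [mul_pow, Real.sq_sqrt (by positivity)]
    nlinarith
  have h9 : 1 ≤ γ * Real.sqrt n := by
    rw [div_le_iff₀ hγ0] at h2
    linarith
  have h10 : (Real.sqrt (δ / 2) * Real.sqrt n - 1 / 4) * Real.log p ≤
      (c * Real.sqrt n + γ / 2 * Real.sqrt n) * Real.log p := by
    have : (Real.sqrt (δ / 2) * Real.sqrt n - 1 / 4) * Real.log p ≤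
        (Real.sqrt (8 * m + 1) - 1) / 4 * Real.log p := by
      refine mul_le_mul_of_nonneg_right ?_ hlogp.le
      linarith
    nlinarith
  have h11 := le_of_mul_le_mul_right h10 hlogp
  have h12 : Real.sqrt (δ / 2) = γ + c := by rw [hγ]; ring
  rw [h12] at h11
  nlinarith

/-- Adjoint groups of rings have many conjugacy classes, and so do the groups with a large
adjoint section.
(1) If `A` is the adjoint group of a ring and `|A| = p ^ n`, then every centralizer of an element
of `A` has at least `p ^ ((√(8 n + 1) - 1) / 4)` elements.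
(2) If a finite group `G` has a subgroup `H` with an epimorphism onto an adjoint group of order
`p ^ m`, then `p ^ ((√(8 m + 1) - 1) / 4) ≤ |G : H| k(G)`.
(3) If `|P n| = p ^ n` and `log k(P n) / √n` tends to `0`, then for all `δ > 0` and
`c < √(δ / 2)` and for all large `n`, no subgroup of index at most `p ^ (c √n)` of `P n` has a
quotient which is an adjoint group of order at least `p ^ (δ n)`. -/
theorem result :
    (∀ (A : Type) [Group A], IsAdjoint A → ∀ p n : ℕ, p.Prime → Nat.card A = p ^ n → ∀ g : A,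
      (p : ℝ) ^ ((Real.sqrt (8 * n + 1) - 1) / 4) ≤
        (Nat.card (Subgroup.centralizer {g}) : ℝ)) ∧
    (∀ (G : Type) [Group G] [Finite G] (H : Subgroup G) (A : Type) [Group A] (f : H →* A),
      Function.Surjective f → IsAdjoint A → ∀ p m : ℕ, p.Prime → Nat.card A = p ^ m →
      (p : ℝ) ^ ((Real.sqrt (8 * m + 1) - 1) / 4) ≤
        (H.index : ℝ) * (Nat.card (ConjClasses G) : ℝ)) ∧
    (∀ p : ℕ, p.Prime → ∀ (P : ℕ → Type) [∀ n, Group (P n)], (∀ n, Nat.card (P n) = p ^ n) →
      Tendsto (fun n : ℕ => Real.log (Nat.card (ConjClasses (P n))) / Real.sqrt n)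
        atTop (𝓝 0) →
      ∀ δ c : ℝ, 0 < δ → c < Real.sqrt (δ / 2) →
      ∀ᶠ n : ℕ in atTop, ∀ (H : Subgroup (P n)) (A : Type) [Group A] (f : H →* A),
        Function.Surjective f → IsAdjoint A → (H.index : ℝ) ≤ (p : ℝ) ^ (c * Real.sqrt n) →
        (Nat.card A : ℝ) < (p : ℝ) ^ (δ * n)) :=
  ⟨fun A _ hA p n hp hc g => centralizer_part A hA p n hp hc g,
    fun G _ _ H A _ f hf hA p m hp hc => section_part G H A f hf hA p m hp hc,
    fun p hp P _ hP hlim δ c hδ hc => sequence_part p hp P hP hlim δ c hδ hc⟩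

end Pool.Agent.Results.MP_e2add9_al.NoAdjointSections
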